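import Pool.Agent.J6H54.CH.Stm

/-!
# CH-05: first passage through the window (after `Pool.Agent.J6H97.CG.M05` of helper97)
-/

set_option autoImplicit false

namespace Pool.Agent.J6H44.CH05

open Pool.Agent.J6H54.CH

/-- steps are bounded, so the change over `n` steps is bounded -/
theorem change_le {H : ℕ → ℤ} {R n : ℕ} (hst : ∀ i < n, (H (i + 1) - H i).natAbs ≤ R) (a : ℕ) :
    ∀ d : ℕ, a + d ≤ n → (H (a + d) - H a).natAbs ≤ R * d := by
  intro d
  induction d with
  | zero => simp
  | succ d ih =>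
    intro h
    have h1 := ih (by omega)
    have h2 := hst (a + d) (by omega)
    rw [Nat.mul_succ]
    have h3 : a + (d + 1) = a + d + 1 := by omega
    rw [h3]
    omega

/-- first passage for a function with bounded steps -/
theorem passage {H : ℕ → ℤ} {R D n : ℕ} (hst : ∀ i < n, (H (i + 1) - H i).natAbs ≤ R) (hRD : R ≤ D)
    (h0 : D < (H 0).natAbs) :
    (∀ i ≤ n, R < (H i).natAbs) ∨
    (∃ σ ≤ n, (∀ i ≤ σ, R < (H i).natAbs) ∧ ∀ i, σ < i → i ≤ n → (H i).natAbs ≤ D) ∨
    (∃ σ τ : ℕ, σ < τ ∧ τ ≤ n ∧ (∀ i ≤ σ, R < (H i).natAbs) ∧ D < (H σ).natAbs ∧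
      (H σ).natAbs ≤ D + R ∧ (∀ i, σ < i → i < τ → (H i).natAbs ≤ D) ∧ D < (H τ).natAbs ∧
      (H τ).natAbs ≤ D + R ∧ 2 * (D - R) ≤ R * (τ - σ)) := by
  classical
  by_cases hA : ∀ i ≤ n, R < (H i).natAbs
  · exact Or.inl hA
  right
  push Not at hA
  have hτ := Nat.find_spec hA
  have hτm : ∀ i < Nat.find hA, R < (H i).natAbs := by
    intro i hi
    have h1 := Nat.find_min hA hi
    by_contra h2
    exact h1 ⟨by omega, by omega⟩
  set τ := Nat.find hA with hτdef
  obtain ⟨hτn, hτR⟩ := hτ
  set σ := Nat.findGreatest (fun i => D < (H i).natAbs) τ with hσdef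
  have hστ : σ ≤ τ := Nat.findGreatest_le τ
  have hσD : D < (H σ).natAbs := by
    have := Nat.findGreatest_spec (P := fun i => D < (H i).natAbs) (n := τ) (m := 0) (Nat.zero_le _) h0
    exact this
  have hσne : σ ≠ τ := by
    intro h
    rw [h] at hσD
    omega
  have hσm : ∀ i, σ < i → i ≤ τ → (H i).natAbs ≤ D := by
    intro i h1 h2
    have := Nat.findGreatest_is_greatest (P := fun i => D < (H i).natAbs) h1 h2
    omega
  have hσs := hst σ (by omega)
  have hσ1 := hσm (σ + 1) (by omega) (by omega)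
  by_cases hB : ∃ i, τ < i ∧ i ≤ n ∧ D < (H i).natAbs
  · right
    have hρ := Nat.find_spec hB
    have hρm : ∀ i < Nat.find hB, τ < i → (H i).natAbs ≤ D := by
      intro i hi h2
      have h1 := Nat.find_min hB hi
      by_contra h3
      exact h1 ⟨h2, by omega, by omega⟩
    set ρ := Nat.find hB with hρdef
    obtain ⟨hρ1, hρ2, hρ3⟩ := hρ
    have hρs := hst (ρ - 1) (by omega)
    have hρ4 : (H (ρ - 1)).natAbs ≤ D := by
      by_cases h : ρ - 1 = τ
      · rw [h]
        omega
      · exact hρm (ρ - 1) (by omega) (by omega)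
    rw [show ρ - 1 + 1 = ρ by omega] at hρs
    have hc1 := change_le hst σ (τ - σ) (by omega)
    have hc2 := change_le hst τ (ρ - τ) (by omega)
    rw [show σ + (τ - σ) = τ by omega] at hc1
    rw [show τ + (ρ - τ) = ρ by omega] at hc2
    have hsum : R * (ρ - σ) = R * (τ - σ) + R * (ρ - τ) := by
      rw [← Nat.mul_add]
      congr 1
      omega
    refine ⟨σ, ρ, by omega, hρ2, fun i hi => hτm i (by omega), hσD, by omega, ?_, hρ3, by omega, ?_⟩
    · intro i h1 h2
      by_cases h3 : i ≤ τ
      · exact hσm i h1 h3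
      · exact hρm i h2 (by omega)
    · rw [hsum]
      omega
  · left
    push Not at hB
    refine ⟨σ, by omega, fun i hi => hτm i (by omega), fun i h1 h2 => ?_⟩
    by_cases h3 : i ≤ τ
    · exact hσm i h1 h3
    · exact hB i (by omega) h2

theorem ht_take_add {Λ : Type} [AddCommGroup Λ] (w : List (Λ × ℤ)) (a i : ℕ) :
    ht (w.take (a + i)) = ht (w.take a) + ht ((w.drop a).take i) := by
  rw [List.take_add, ht_append]

theorem m05 : S_split := by
  intro Λ _ T R D j s w hR1 hB hw hRD h0
  have hst : ∀ i < w.length, ((s + ht (w.take (i + 1)) - j) - (s + ht (w.take i) - j)).natAbs ≤ R := by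
    intro i hi
    have h1 : w.take (i + 1) = w.take i ++ [w[i]] := (List.take_concat_get' w i hi).symm
    have h2 : ht (w.take (i + 1)) = ht (w.take i) + (w[i]).2 := by
      rw [h1, ht_append, ht_cons, ht_nil, add_zero]
    rw [h2]
    have h3 := hB w[i] (hw _ (List.getElem_mem hi))
    have h4 : s + (ht (w.take i) + (w[i]).2) - j - (s + ht (w.take i) - j) = (w[i]).2 := by ring
    rw [h4]
    exact h3
  have h0' : D < (s + ht (w.take 0) - j).natAbs := by
    rw [List.take_zero, ht_nil, add_zero]
    exact h0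
  have hAv : ∀ σ ≤ w.length, (∀ i ≤ σ, R < (s + ht (w.take i) - j).natAbs) → Av j R s (w.take σ) := by
    intro σ hσ h i hi
    rw [List.length_take] at hi
    rw [List.take_take, min_eq_left (by omega)]
    exact h i (by omega)
  rcases passage (H := fun i => s + ht (w.take i) - j) hst hRD h0' with h | ⟨σ, hσ, h1, h2⟩ |
      ⟨σ, τ, hστ, hτ, h1, h2, h3, h4, h5, h6, h7⟩
  · left
    refine ⟨w, [], (List.append_nil w).symm, h, ?_⟩
    intro i hi hi2
    rw [List.length_nil] at hi2
    omega
  · left
    refine ⟨w.take σ, w.drop σ, (List.take_append_drop σ w).symm, hAv σ hσ h1, ?_⟩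
    intro i hi hi2
    rw [List.length_drop] at hi2
    have h3 := h2 (σ + i) (by omega) (by omega)
    rw [ht_take_add] at h3
    rw [add_assoc s]
    exact h3
  · right
    have hlen : ((w.drop σ).take (τ - σ)).length = τ - σ := by
      rw [List.length_take, List.length_drop]
      omega
    have ht1 : s + ht (w.take σ) + ht ((w.drop σ).take (τ - σ)) = s + ht (w.take τ) := by
      rw [add_assoc, ← ht_take_add, show σ + (τ - σ) = τ by omega]
    refine ⟨w.take σ, (w.drop σ).take (τ - σ), w.drop τ, ?_, ?_, hAv σ (by omega) h1, h2, h3, ?_, ?_, ?_, ?_⟩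
    · rw [← List.take_add, show σ + (τ - σ) = τ by omega, List.take_append_drop]
    · intro h
      rw [h, List.length_nil] at hlen
      omega
    · intro i hi hi2
      rw [hlen] at hi2
      rw [List.take_take, min_eq_left (by omega), add_assoc s, ← ht_take_add]
      exact h4 (σ + i) (by omega) (by omega)
    · rw [ht1]
      exact h5
    · rw [ht1]
      exact h6
    · rw [hlen]
      exact h7

end Pool.Agent.J6H44.CH05
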